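import Pool.Agent.K4H11.AW.Growth

/-!
# The Knörr-Robinson sums for odd primes: zero or of polynomial growth

`O` is a valuation ring of `ℂ` whose maximal ideal contains the odd prime `p`; blocks, defect groups and
block induction are defined by central characters modulo the maximal ideal of `O`
(`Pool.Agent.H254R3.IN`, `Pool.Agent.Q90.WR.IndS`).

Proof. `S(B ⊗ B') = S(B) S(B')` and `2 S(B ≀ C₂) = S(B)² + 3 S(B)`. If `S(B) ≠ 0` then
`S((B ⊗ B) ≀ C₂) ≥ 2`, and direct powers give the growth.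
-/

set_option autoImplicit false

noncomputable section

namespace Pool.Agent.Results.MP_6a3f1a_al.GrowthGap

open Pool.Agent.Y63.KR (alternatingSum)
open Pool.Agent.Q90.WR (Wr IndS AdmB bxS)
open Pool.Agent.Q259.BW (WrS)

/-- `k(B_σ)` for `G_σ = H`: the number of the irreducible characters `θ` of `H` with `bl(θ)^G = B`. -/
def k (O : ValuationSubring ℂ) {G : Type} [Group G] (B : Set (G → ℂ)) (H : Subgroup G) : ℕ :=
  Nat.card {θ : H → ℂ // θ ∈ IndS O B (Subtype.val : H → G)}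

/-- The sum of Q1 for `O_p(G) = 1`: `∑_σ (-1)^|σ| k(B_σ)` over representatives `σ` of the `G`-classes of
chains of nontrivial `p`-subgroups of `G`, the empty chain included. -/
def S (p : ℕ) (O : ValuationSubring ℂ) {G : Type} [Group G] (B : Set (G → ℂ)) : ℤ :=
  alternatingSum p G (fun H => (k O B H : ℤ))

/-- Let `p` be an odd prime. Let `C` be a class of pairs `(G, B)`, `G` a finite group with `O_p(G) = 1`
and `B` a block of `G` with nontrivial defect groups (`AdmB p O G B`), which contains with `(G, B)` and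
`(G', B')` also `(G ≀ C₂, B ≀ C₂)` and `(G × G', B ⊗ B')`; for instance the class of all these pairs.
(1) If `S(B) ≠ 0` for a member `(G, B)` then for each `n` there is a member `(G', B')` with
`|G'| = (2 |G|⁴)^(2^n)` and `S(B') ≥ 2^(2^n)`, so that `S(B') ≥ |G'|^c` for `c = log 2 / log (2 |G|⁴)`.
(2) `S(B) = 0` for all members if and only if for each `ε > 0` there is `c` with `S(B) ≤ c |G|^ε` for all
members.
(3) `S(B) ≥ 0` for all members if and only if for each `ε > 0` there is `c` with `S(B) ≥ -c |G|^ε` for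
all members. -/
theorem result (p : ℕ) [Fact p.Prime] (hp2 : p ≠ 2) (O : ValuationSubring ℂ)
    (hpO : (p : ℂ) ∈ O.nonunits) (C : (G : Type) → Group G → Set (G → ℂ) → Prop)
    (h1 : ∀ (G : Type) [i : Group G] (B : Set (G → ℂ)), C G i B → AdmB p O G B)
    (h2 : ∀ (G : Type) [i : Group G] (B : Set (G → ℂ)), C G i B → C (Wr G) inferInstance (WrS B))
    (h3 : ∀ (G : Type) [i : Group G] (B : Set (G → ℂ)) (G' : Type) [i' : Group G']
      (B' : Set (G' → ℂ)), C G i B → C G' i' B' → C (G × G') inferInstance (bxS B B')) :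
    (∀ (G : Type) [i : Group G] (B : Set (G → ℂ)), C G i B → S p O B ≠ 0 → ∀ n : ℕ,
      ∃ (G' : Type) (i' : Group G') (B' : Set (G' → ℂ)), C G' i' B' ∧
        Nat.card G' = (2 * Nat.card G ^ 4) ^ 2 ^ n ∧ 2 ^ 2 ^ n ≤ S p O B' ∧
        (Nat.card G' : ℝ) ^ (Real.log 2 / Real.log (2 * (Nat.card G : ℝ) ^ 4)) ≤ (S p O B' : ℝ)) ∧
    ((∀ (G : Type) [i : Group G] (B : Set (G → ℂ)), C G i B → S p O B = 0) ↔
      ∀ ε : ℝ, 0 < ε → ∃ c : ℝ, ∀ (G : Type) [i : Group G] (B : Set (G → ℂ)), C G i B →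
        (S p O B : ℝ) ≤ c * (Nat.card G : ℝ) ^ ε) ∧
    ((∀ (G : Type) [i : Group G] (B : Set (G → ℂ)), C G i B → 0 ≤ S p O B) ↔
      ∀ ε : ℝ, 0 < ε → ∃ c : ℝ, ∀ (G : Type) [i : Group G] (B : Set (G → ℂ)), C G i B →
        -(c * (Nat.card G : ℝ) ^ ε) ≤ (S p O B : ℝ)) := by
  have h3' : ∀ (G : Type) [i : Group G] (B : Set (G → ℂ)), C G i B →
      C (G × G) inferInstance (bxS B B) := fun G _ B h => h3 G B G B h h
  refine ⟨fun G _ B hB hne n => ?_, Pool.Agent.K4H11.AW.upper hp2 hpO h1 h2 h3',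
    Pool.Agent.K4H11.AW.lower hp2 hpO h1 h2 h3⟩
  obtain ⟨G', i', B', e1, e2, e3⟩ := Pool.Agent.K4H11.AW.amplify hp2 hpO h1 h2 h3' G B hB hne n
  refine ⟨G', i', B', e1, e2, e3, ?_⟩
  have := (h1 G B hB).fin
  have hN : (1 : ℝ) ≤ (Nat.card G : ℝ) := by exact_mod_cast (Nat.card_pos (α := G))
  have hM : (2 : ℝ) ≤ 2 * (Nat.card G : ℝ) ^ 4 := by
    have : (1 : ℝ) ≤ (Nat.card G : ℝ) ^ 4 := one_le_pow₀ hN
    linarith
  have hM0 : (0 : ℝ) < 2 * (Nat.card G : ℝ) ^ 4 := by linarith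
  have hl : Real.log (2 * (Nat.card G : ℝ) ^ 4) ≠ 0 := (Real.log_pos (by linarith)).ne'
  have h4 : (Nat.card G' : ℝ) ^ (Real.log 2 / Real.log (2 * (Nat.card G : ℝ) ^ 4)) =
      (2 : ℝ) ^ 2 ^ n := by
    rw [e2]
    push_cast
    generalize 2 * (Nat.card G : ℝ) ^ 4 = M at hM0 hl ⊢
    rw [← Real.rpow_natCast M, ← Real.rpow_mul hM0.le, mul_comm _ (Real.log 2 / Real.log M),
      Real.rpow_mul hM0.le, Real.rpow_def_of_pos hM0 (Real.log 2 / Real.log M),
      mul_div_cancel₀ _ hl, Real.exp_log two_pos, ← Real.rpow_natCast (2 : ℝ)]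
  rw [h4]
  have h5 : (((2 : ℤ) ^ 2 ^ n : ℤ) : ℝ) ≤ ((S p O B' : ℤ) : ℝ) := by exact_mod_cast e3
  push_cast at h5
  exact h5

end Pool.Agent.Results.MP_6a3f1a_al.GrowthGap
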