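import Pool.Agent.Q99.AS.Dade

/-!
# The Knörr-Robinson sums are multiplicative, one inequality suffices

Let `p` be a prime and `red` a homomorphism from the ring of algebraic integers to a field of
characteristic `p`; its kernel is a maximal ideal that contains `p`.  The `p`-blocks of the finite group
`G` are the sets of irreducible characters with the same central character modulo this ideal.
For a subgroup `H` and `ϑ ∈ Irr(H)`, `bl(ϑ)^G = bl(χ)` means that, modulo the ideal, the central
character of `ϑ` has at the sum of the elements of `H` in a conjugacy class of `G` the same value as the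
central character of `χ` at the sum of this class (`Pool.Agent.Q99.AS.Induces`).

`altSum p O f` (`Pool.Agent.Q99.AS.Chain`) is the alternating sum `∑_σ (-1)^|σ| f(G_σ)` over
representatives of the conjugacy classes of chains `σ = (O = D_0 < D_1 < ⋯ < D_n)` of `p`-subgroups.
-/

set_option autoImplicit false

namespace Pool.Agent.Results.MP_6a3f1a_al.OneSidedInequality

open Pool.Agent.Q99.AS Pool.Agent.Helper884.IC
open Pool.Agent.Y63.KR (conjSub)

variable {F : Type} [Field F]

/-- The number of the `ϑ ∈ Irr(H)` with `bl(ϑ)^G = bl(χ)` and values in the subfield `K` of `ℂ`; for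
`K = ℂ` this is `k(B_σ)`, where `B = bl(χ)` and `H = G_σ`. -/
noncomputable def k (red : integralClosure ℤ ℂ →+* F) (K : Subfield ℂ) {G : Type} [Group G]
    (χ : G → ℂ) (H : Subgroup G) : ℤ :=
  Nat.card {ϑ : H → ℂ // IsIrrChar ϑ ∧ Induces red χ ϑ ∧ ∀ h, ϑ h ∈ K}

/-- The alternating sum `∑_σ (-1)^|σ| k(B_σ)` for the block `B` of `χ`, over the chains of `p`-subgroups
which start at `O`, where only characters with values in `K` are counted. -/
noncomputable def sum (p : ℕ) (red : integralClosure ℤ ℂ →+* F) (K : Subfield ℂ) {G : Type} [Group G]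
    (O : Subgroup G) (χ : G → ℂ) : ℤ :=
  altSum p O (k red K χ)

/-- The hypotheses of Q1: `O = O_p(G)` is central, and the block of `χ ∈ Irr(G)` has defect groups
larger than `O`, as shown by `χ` itself: `χ(1)_p |O| < |G|_p`.  (The blocks whose defect groups are
larger than `O` are those which contain such a character, for instance one of height zero.) -/
def Datum (p : ℕ) {G : Type} [Group G] (O : Subgroup G) (χ : G → ℂ) : Prop :=
  IsCore p O ∧ O ≤ Subgroup.center G ∧ IsIrrChar χ ∧ Big p O χ

/-- `Q` holds for the orders `|G|` and the alternating sums of all data as in Q1 with `G` in the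
class `X`. -/
def All (p : ℕ) (red : integralClosure ℤ ℂ →+* F) (K : Subfield ℂ)
    (X : ∀ (G : Type) [Group G] [Finite G], Prop) (Q : ℕ → ℤ → Prop) : Prop :=
  ∀ (G : Type) [Group G] [Finite G] (O : Subgroup G) (χ : G → ℂ),
    X G → Datum p O χ → Q (Nat.card G) (sum p red K O χ)

theorem sum_prod {p : ℕ} [Fact p.Prime] (red : integralClosure ℤ ℂ →+* F) (K : Subfield ℂ)
    {G G' : Type} [Group G] [Group G'] [Finite G] [Finite G'] {O : Subgroup G} {O' : Subgroup G'}
    {χ : G → ℂ} {χ' : G' → ℂ} (hO : IsPGroup p O) (hO' : IsPGroup p O') (n : O.Normal)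
    (n' : O'.Normal) (hχ : IsIrrChar χ) (hχ' : IsIrrChar χ') :
    sum p red K (O.prod O') (ten χ χ') = sum p red K O χ * sum p red K O' χ' := by
  have hc : ∀ (J : Type) [Group J] (g : J) (H : Subgroup J) (ϑ : conjSub g H → ℂ),
      (∀ h, (fun x => ϑ (cj g H x)) h ∈ K) ↔ ∀ h, ϑ h ∈ K := by
    intro J _ g H ϑ
    constructor
    · intro h y
      obtain ⟨x, rfl⟩ := (cj g H).surjective y
      exact h x
    · intro h x
      exact h _
  have h1 := altSum_prod (p := p) hO hO' n n' (Finset.univ : Finset Unit)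
    (num red (ten χ χ') fun H ϑ => ∀ h : H, ϑ h ∈ K) (fun _ => num red χ fun H ϑ => ∀ h : H, ϑ h ∈ K)
    (fun _ => num red χ' fun H ϑ => ∀ h : H, ϑ h ∈ K) (num_conj red _ (hc (G × G')))
    (fun _ => num_conj red _ (hc G)) (fun _ => num_conj red _ (hc G')) ?_
  · rw [Finset.univ_unique, Finset.sum_singleton] at h1
    exact h1
  intro H L
  refine num_prod red hχ hχ' (Finset.univ : Finset Unit) (fun H ϑ => ∀ h : H, ϑ h ∈ K)
    (fun _ H ϑ => ∀ h : H, ϑ h ∈ K) (fun _ H ϑ => ∀ h : H, ϑ h ∈ K) H L
    (fun θ ψ h1 h2 => ?_) (fun _ _ _ _ _ _ _ _ _ _ => rfl)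
  have := Fintype.ofFinite H
  have := Fintype.ofFinite L
  obtain ⟨n, hn0, hn⟩ := Pool.Agent.Q90.WR.deg_pos h1
  obtain ⟨m, hm0, hm⟩ := Pool.Agent.Q90.WR.deg_pos h2
  constructor
  · intro h
    have h' : ∀ (a : H) (b : L), θ a * ψ b ∈ K := fun a b => h ⟨(a.1, b.1), a.2, b.2⟩
    refine ⟨(), Finset.mem_univ _, fun a => ?_, fun b => ?_⟩
    · have h3 := h' a 1
      rw [hm] at h3
      have h4 : (m : ℂ) ∈ K := natCast_mem K m
      have h5 : θ a = θ a * (m : ℂ) / m := by
        rw [mul_div_cancel_right₀]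
        exact_mod_cast hm0.ne'
      rw [h5]
      exact K.div_mem h3 h4
    · have h3 := h' 1 b
      rw [hn] at h3
      have h4 : (n : ℂ) ∈ K := natCast_mem K n
      have h5 : ψ b = (n : ℂ) * ψ b / n := by
        rw [mul_div_cancel_left₀]
        exact_mod_cast hn0.ne'
      rw [h5]
      exact K.div_mem h3 h4
  · rintro ⟨-, -, h3, h4⟩ x
    exact K.mul_mem (h3 _) (h4 _)

theorem Datum.sq {p : ℕ} [Fact p.Prime] {G : Type} [Group G] [Finite G] {O : Subgroup G}
    {χ : G → ℂ} (h : Datum p O χ) : Datum p (O.prod O) (ten χ χ) := by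
  obtain ⟨h1, h2, h3, h4⟩ := h
  have := Fintype.ofFinite G
  exact ⟨h1.prod h1, center_prod h2 h2, ten_irr h3 h3, h4.prod h3 h3 h4⟩

/-- Let `p` be a prime, `red` the reduction of the algebraic integers modulo a maximal ideal that
contains `p`, and `K` a subfield of `ℂ` (`K = ℂ` for Q1).
(1) For finite groups `G`, `G'` with normal `p`-subgroups `O`, `O'` the alternating sum of the block
`B ⊗ B'` of `G × G'`, over the chains starting at `O × O'`, is the product of those of `B` and `B'`.
Let `X` be a class of finite groups which contains `G × G` for each of its members `G`, for instance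
that of all finite groups.
(2) The sums vanish for all `(G, B)` as in Q1 with `G` in `X` if and only if they are all `≤ 0`.
(3) These sums are all in `{-1, 0, 1}` if and only if for each `ε > 0` there is `C` such that all of
them are `≤ C |G|^ε`. -/
theorem result (p : ℕ) [Fact p.Prime] (F : Type) [Field F] [CharP F p]
    (red : integralClosure ℤ ℂ →+* F) (K : Subfield ℂ) :
    (∀ (G G' : Type) [Group G] [Group G'] [Finite G] [Finite G'] (O : Subgroup G)
      (O' : Subgroup G') (χ : G → ℂ) (χ' : G' → ℂ), IsPGroup p O → IsPGroup p O' → O.Normal →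
      O'.Normal → IsIrrChar χ → IsIrrChar χ' →
        sum p red K (O.prod O') (ten χ χ') = sum p red K O χ * sum p red K O' χ') ∧
    ∀ X : ∀ (G : Type) [Group G] [Finite G], Prop,
      (∀ (G : Type) [Group G] [Finite G], X G → X (G × G)) →
        (All p red K X (fun _ s => s = 0) ↔ All p red K X (fun _ s => s ≤ 0)) ∧
        (All p red K X (fun _ s => |s| ≤ 1) ↔
          ∀ ε : ℝ, 0 < ε → ∃ C : ℝ, All p red K X (fun n s => (s : ℝ) ≤ C * (n : ℝ) ^ ε)) := by
  refine ⟨fun G G' _ _ _ _ O O' χ χ' a b c d e f => sum_prod red K a b c d e f, fun X hX => ?_⟩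
  have hsq : ∀ (G : Type) [Group G] [Finite G] (O : Subgroup G) (χ : G → ℂ), Datum p O χ →
      sum p red K (O.prod O) (ten χ χ) = sum p red K O χ * sum p red K O χ := by
    intro G _ _ O χ h
    exact sum_prod red K h.1.isPGroup h.1.isPGroup h.1.normal h.1.normal h.2.2.1 h.2.2.1
  refine ⟨⟨fun h G _ _ O χ h1 h2 => (h G O χ h1 h2).le, fun h G _ _ O χ h1 h2 => ?_⟩,
    fun h ε hε => ⟨1, fun G _ _ O χ h1 h2 => ?_⟩, fun h G _ _ O χ h1 h2 => ?_⟩
  · have h3 := h (G × G) (O.prod O) (ten χ χ) (hX G h1) h2.sq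
    rw [hsq G O χ h2] at h3
    exact mul_self_eq_zero.1 (le_antisymm h3 (mul_self_nonneg _))
  · have h3 := h G O χ h1 h2
    have h4 : (sum p red K O χ : ℝ) ≤ 1 := by exact_mod_cast (le_abs_self _).trans h3
    have h5 : (1 : ℝ) ≤ (Nat.card G : ℝ) := by exact_mod_cast Nat.card_pos
    change (sum p red K O χ : ℝ) ≤ 1 * (Nat.card G : ℝ) ^ ε
    rw [one_mul]
    exact h4.trans (Real.one_le_rpow h5 hε.le)
  · refine unit_of_subpoly (P := fun n s => ∃ (G : Type) (_ : Group G) (_ : Finite G)
      (O : Subgroup G) (χ : G → ℂ), X G ∧ Datum p O χ ∧ n = Nat.card G ∧ s = sum p red K O χ)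
      ?_ ?_ ?_ (Nat.card G) _ ⟨G, inferInstance, inferInstance, O, χ, h1, h2, rfl, rfl⟩
    · rintro n s ⟨G, _, _, O, χ, -, -, rfl, -⟩
      exact Nat.card_pos
    · rintro n s ⟨G, _, _, O, χ, h1, h2, rfl, rfl⟩
      exact ⟨G × G, inferInstance, inferInstance, O.prod O, ten χ χ, hX G h1, h2.sq,
        (Nat.card_prod G G).symm, (hsq G O χ h2).symm⟩
    · intro ε hε
      obtain ⟨C, hC⟩ := h ε hε
      refine ⟨C, ?_⟩
      rintro n s ⟨G, _, _, O, χ, h1, h2, rfl, rfl⟩
      exact hC G O χ h1 h2

end Pool.Agent.Results.MP_6a3f1a_al.OneSidedInequality
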