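import Pool.Agent.K4H11.AW.Par

/-!
# The Knörr-Robinson sums for odd primes: characters with fields of values of odd degree

`O` is a valuation ring of `ℂ` whose maximal ideal contains the odd prime `p`; blocks, defect groups and
block induction are defined by central characters modulo the maximal ideal of `O`
(`Pool.Agent.H254R3.IN`, `Pool.Agent.Q90.WR.IndS`).

Proof. For two different blocks `B₁`, `B₂` of `G` let `B₁ ⋈ B₂` be the block of `G ≀ C₂` above
`B₁ ⊗ B₂`. The characters of the stabilisers `G_σ ≀ C₂` and `G_σ × G_τ` whose blocks induce to it are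
found from the central characters, and the identity `Pool.Agent.Q90.WR.functional` for chains of
`G ≀ C₂` gives `S(B₁ ⋈ B₂) = S(B₁) S(B₂)`. With `B₂` a Galois conjugate of `B₁ = B` of order two this
reduces the vanishing of `S(B)` to a block with fewer Galois conjugates, in the end to blocks with an
odd number of Galois conjugates. For these the `2`-part of the Galois group acts on the characters
of `G_σ` counted by `S(B)`, and its fixed points are the characters with a field of values of odd
degree. By `2 S(B ≀ C₂) = S(B)² + 3 S(B)` parities decide.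
-/

set_option autoImplicit false

noncomputable section

namespace Pool.Agent.Results.MP_6a3f1a_al.ParityOddDegree

open Pool.Agent.Y63.KR (alternatingSum chainSetoid chainStabilizer)
open Pool.Agent.Q90.WR (Wr WrN WrSN IndS AdmB)
open Pool.Agent.Q259.BW (WrS)
open Pool.Agent.Q288.MB (WrM numConj)
open Pool.Agent.H254R3.IN (IsBlock IsDefectGroup)

/-- `k(B_σ)` for `G_σ = H`: the number of the irreducible characters `θ` of `H` with `bl(θ)^G = B`. -/
def k (O : ValuationSubring ℂ) {G : Type} [Group G] (B : Set (G → ℂ)) (H : Subgroup G) : ℕ :=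
  Nat.card {θ : H → ℂ // θ ∈ IndS O B (Subtype.val : H → G)}

/-- The number of the irreducible characters `θ` of `H` with `bl(θ)^G = B` and `[ℚ(θ) : ℚ]` odd. -/
def kOdd (O : ValuationSubring ℂ) {G : Type} [Group G] (B : Set (G → ℂ)) (H : Subgroup G) : ℕ :=
  Nat.card {θ : H → ℂ // θ ∈ IndS O B (Subtype.val : H → G) ∧
    Odd (Module.finrank ℚ (IntermediateField.adjoin ℚ (Set.range θ)))}

/-- The sum of Q1 for `O_p(G) = 1`: `∑_σ (-1)^|σ| k(B_σ)` over representatives `σ` of the `G`-classes of
chains of nontrivial `p`-subgroups of `G`, the empty chain included. -/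
def S (p : ℕ) (O : ValuationSubring ℂ) {G : Type} [Group G] (B : Set (G → ℂ)) : ℤ :=
  alternatingSum p G (fun H => (k O B H : ℤ))

/-- The sum without signs, `∑_σ k(B_σ)`. -/
def T (p : ℕ) (O : ValuationSubring ℂ) {G : Type} [Group G] (B : Set (G → ℂ)) : ℕ :=
  ∑ᶠ c : Quotient (chainSetoid p G), k O B (chainStabilizer c.out.1)

/-- The sum without signs of the numbers of the characters with `[ℚ(θ) : ℚ]` odd. -/
def TOdd (p : ℕ) (O : ValuationSubring ℂ) {G : Type} [Group G] (B : Set (G → ℂ)) : ℕ :=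
  ∑ᶠ c : Quotient (chainSetoid p G), kOdd O B (chainStabilizer c.out.1)

/-- Let `p` be an odd prime. Here `(G, B)` is a finite group with `O_p(G) = 1` and a block `B` with
nontrivial defect groups (`AdmB p O G B`).
(1) If `B` has an odd number of Galois conjugates then `S(B)` is congruent modulo two to the number
`TOdd` of the pairs (class of chains `σ`, `θ ∈ Irr(G_σ)`) with `bl(θ)^G = B` and `[ℚ(θ) : ℚ]` odd.
(2) `S(B) = 0` for all `(G, B)` if and only if `TOdd` is even for all `(G, B)` such that `B` has an odd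
number of Galois conjugates.
(3) For one `(G, B)` with an odd number of Galois conjugates `S(B) = 0` if and only if `TOdd` is even for
the `j`-fold iterated wreath products of `(G, B)` with `C₂`, for all `j` with `2^j ≤ T(B)`.
(4) For one `(G, B)`: `2^a` divides `S(B)` if and only if `T` is even for the iterated wreath products
`WrSN j B`, `j < a`.
(5) For different blocks `B₁`, `B₂` of a finite group `G` the characters of `G ≀ C₂` induced from
`B₁ ⊗ B₂` form a block with `S(WrM B₁ B₂) = S(B₁) S(B₂)`. -/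
theorem result (p : ℕ) [Fact p.Prime] (hp2 : p ≠ 2) (O : ValuationSubring ℂ)
    (hpO : (p : ℂ) ∈ O.nonunits) :
    (∀ (G : Type) [Group G] (B : Set (G → ℂ)), AdmB p O G B → Odd (numConj B) →
      S p O B ≡ (TOdd p O B : ℤ) [ZMOD 2]) ∧
    ((∀ (G : Type) [Group G] (B : Set (G → ℂ)), AdmB p O G B → S p O B = 0) ↔
      ∀ (G : Type) [Group G] (B : Set (G → ℂ)), AdmB p O G B → Odd (numConj B) →
        Even (TOdd p O B)) ∧
    (∀ (G : Type) [Group G] (B : Set (G → ℂ)), AdmB p O G B → Odd (numConj B) →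
      (S p O B = 0 ↔ ∀ j : ℕ, 2 ^ j ≤ T p O B → Even (TOdd p O (WrSN j B)))) ∧
    (∀ (G : Type) [Group G] (B : Set (G → ℂ)), AdmB p O G B → ∀ a : ℕ,
      ((2 : ℤ) ^ a ∣ S p O B ↔ ∀ j < a, Even (T p O (WrSN j B)))) ∧
    ∀ (G : Type) [Group G] [Finite G] (B₁ B₂ : Set (G → ℂ)), IsBlock O B₁ → IsBlock O B₂ →
      B₁ ≠ B₂ → IsBlock O (WrM B₁ B₂) ∧ S p O (WrM B₁ B₂) = S p O B₁ * S p O B₂ := by
  refine ⟨fun G _ B hB ho => ?_, Pool.Agent.K4H11.AW.odd_all hp2 hpO,
    fun G _ B hB ho => Pool.Agent.K4H11.AW.odd_fin hp2 hpO hB ho, fun G _ B hB a => ?_,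
    fun G _ _ B₁ B₂ h1 h2 hne => ?_⟩
  · have := hB.fin
    have h1 := Pool.Agent.K4H11.AW.blkOdd_mod (p := p) hB.block ho
    have h2 := Pool.Agent.Q90.WR.blkAlt_parity (p := p) (O := O) B
    have h3 : (2 : ℤ) ∣ S p O B ↔ Even (TOdd p O B) := by
      rw [Nat.ModEq] at h1
      have h4 : Even (TOdd p O B) ↔ Even (Pool.Agent.Q90.WR.blkAltT p O B) := by
        rw [Nat.even_iff, Nat.even_iff]
        change Pool.Agent.K4H11.AW.blkOdd p O B % 2 = 0 ↔ _
        rw [h1]
      rw [h4]
      exact h2.symm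
    have h5 : Even (TOdd p O B) ↔ (2 : ℤ) ∣ (TOdd p O B : ℤ) := by
      rw [even_iff_two_dvd, ← Int.natCast_dvd_natCast]
      rfl
    rw [h5] at h3
    rw [Int.ModEq]
    omega
  · have := hB.fin
    exact Pool.Agent.Q90.WR.ba_iff hp2 hpO a G B (hB.good hpO)
  · have := Fintype.ofFinite G
    exact ⟨Pool.Agent.Q288.MB.wrM_block h1 h2 hne, Pool.Agent.K4H11.AW.blkAlt_wrM hp2 hpO h1 h2 hne⟩

end Pool.Agent.Results.MP_6a3f1a_al.ParityOddDegree
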