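import Pool.Agent.K4H11.FR.Awc

/-!
# The alternating sums of Knörr and Robinson: reduction to perfect groups

`O` is a valuation subring of `ℂ` whose maximal ideal contains `p`; blocks, defect groups and block
induction are defined by central characters modulo the maximal ideal of `O`
(`Pool.Agent.H254R3.IN`, `Pool.Agent.Q90.WR.IndS`).

Let `B` be a `p`-block of a finite group `G`, let `G ≤ H` be a subgroup of index at least three and
`q ≠ p` a prime. Let `V` be the augmentation submodule of the permutation module of `H` on `H/G` over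
the field with `q` elements, and `W = V ⋊ H`. The coordinate at the coset `G` is a linear character `λ`
of `V` with stabiliser `V ⋊ G`, and the characters of `W` induced from the products of the characters in
`B` with the extension of `λ` form a block `B'` of `W`.

Proof of `S(B') = S(B)`. Let `τ` be a chain of `p`-subgroups of `W` with greatest member `P`. The central
characters of `W_τ` vanish modulo the maximal ideal outside `C_W(P)`. (a) If `τ` is the conjugate by
`x ∈ W` of a chain `σ` of `G`, then inflation to `C_V(σ) ⋊ G_σ`, multiplication with `λ` and induction is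
a bijection between the characters of `G_σ` with `bl(θ)^G = B` and the characters of `W_τ` with
`bl(θ)^W = B'` which lie above the restriction of `ˣλ` to `C_V(P)`. (b) Every character `θ` of `W_τ` with
`bl(θ)^W = B'` occurs in (a) for some `x`, by evaluation of the central character at the sum of the
idempotents of the conjugates of `λ` and counting fixed points of `P` on `W/G`. (c) These `x` form one
double coset of `W_τ` and `G`, as two `P`-invariant characters of `V` which agree on `C_V(P)` are equal.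
Summation over `τ` and `x` gives the claim.
-/

set_option autoImplicit false

noncomputable section

namespace Pool.Agent.Results.MP_6a3f1a_al.PerfectGroups

open Pool.Agent.Y63.KR (alternatingSum chainSetoid chainStabilizer)
open Pool.Agent.Q90.WR (IndS AdmB)
open Pool.Agent.Q288.MB (numConj)
open Pool.Agent.H254R3.IN (IsBlock IsDefectGroup)
open Pool.Agent.K4H11.FR (IsExt IsPerfectExt)

/-- `k(B_σ)` for `G_σ = H`: the number of the irreducible characters `θ` of `H` with `bl(θ)^G = B`. -/
def k (O : ValuationSubring ℂ) {G : Type} [Group G] (B : Set (G → ℂ)) (H : Subgroup G) : ℕ :=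
  Nat.card {θ : H → ℂ // θ ∈ IndS O B (Subtype.val : H → G)}

/-- `k^d(B_σ)`: the number of those of `p`-defect `d`. -/
def kDef (p : ℕ) (O : ValuationSubring ℂ) (d : ℕ) {G : Type} [Group G] (B : Set (G → ℂ))
    (H : Subgroup G) : ℕ :=
  Nat.card {θ : H → ℂ // θ ∈ IndS O B (Subtype.val : H → G) ∧
    ∃ n : ℕ, θ 1 = (n : ℂ) ∧ n.factorization p + d = (Nat.card H).factorization p}

/-- The number of the irreducible characters `θ` of `H` with `bl(θ)^G = B` and `[ℚ(θ) : ℚ]` odd. -/
def kOdd (O : ValuationSubring ℂ) {G : Type} [Group G] (B : Set (G → ℂ)) (H : Subgroup G) : ℕ :=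
  Nat.card {θ : H → ℂ // θ ∈ IndS O B (Subtype.val : H → G) ∧
    Odd (Module.finrank ℚ (IntermediateField.adjoin ℚ (Set.range θ)))}

/-- The sum of Q1 for `O_p(G) = 1`: `∑_σ (-1)^|σ| k(B_σ)` over representatives `σ` of the `G`-classes of
chains of nontrivial `p`-subgroups of `G`, the empty chain included. -/
def S (p : ℕ) (O : ValuationSubring ℂ) {G : Type} [Group G] (B : Set (G → ℂ)) : ℤ :=
  alternatingSum p G (fun H => (k O B H : ℤ))

/-- Dade's sum `∑_σ (-1)^|σ| k^d(B_σ)`. -/
def SDef (p : ℕ) (O : ValuationSubring ℂ) (d : ℕ) {G : Type} [Group G] (B : Set (G → ℂ)) : ℤ :=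
  alternatingSum p G (fun H => (kDef p O d B H : ℤ))

/-- The sum without signs of the numbers of the characters with `[ℚ(θ) : ℚ]` odd. -/
def TOdd (p : ℕ) (O : ValuationSubring ℂ) {G : Type} [Group G] (B : Set (G → ℂ)) : ℕ :=
  ∑ᶠ c : Quotient (chainSetoid p G), kOdd O B (chainStabilizer c.out.1)

/-- `O_p(W) = 1`, the defect groups of the blocks `B'` of `W` and `B` of `G` are isomorphic and not
trivial, and all the sums `S`, `SDef` of `B'` and `B` agree. -/
structure Realises (p : ℕ) (O : ValuationSubring ℂ) {G W : Type} [Group G] [Group W]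
    (B' : Set (W → ℂ)) (B : Set (G → ℂ)) : Prop where
  adm : AdmB p O W B'
  defect : ∀ D, IsDefectGroup p O B D → ∃ D', IsDefectGroup p O B' D' ∧ Nonempty (D' ≃* D)
  sum : S p O B' = S p O B
  sumDef : ∀ d, SDef p O d B' = SDef p O d B

/-- `S(B) = 0` for all finite groups `G` with `O_p(G) = 1` and all blocks `B` of `G` with nontrivial
defect groups: Q1 for the prime `p` and `O_p(G) = 1`. -/
def Conj (p : ℕ) (O : ValuationSubring ℂ) : Prop :=
  ∀ (G : Type) [Group G] (B : Set (G → ℂ)), AdmB p O G B → S p O B = 0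

theorem sum_eq {p : ℕ} {O : ValuationSubring ℂ} {G W : Type} [Group G] [Group W]
    {B' : Set (W → ℂ)} {B : Set (G → ℂ)}
    (h : ∀ Q : ℂ → ℕ → Prop, Pool.Agent.K4H11.FR.QOK p Q →
      alternatingSum p W (fun K => (Pool.Agent.K4H11.FR.cntQ O Q B' K : ℤ)) =
        alternatingSum p G (fun K => (Pool.Agent.K4H11.FR.cntQ O Q B K : ℤ))) :
    S p O B' = S p O B := by
  have h1 := h (fun _ _ => True) (fun _ _ _ _ _ _ _ _ _ _ _ => Iff.rfl)
  have e : ∀ {J : Type} [Group J] (C : Set (J → ℂ)) (K : Subgroup J),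
      Pool.Agent.K4H11.FR.cntQ O (fun _ _ => True) C K = k O C K := fun C K =>
    Nat.card_congr (Equiv.subtypeEquivRight fun θ => iff_of_eq (and_true _))
  simp only [e] at h1
  exact h1

theorem sumDef_eq {p : ℕ} [Fact p.Prime] {O : ValuationSubring ℂ} {G W : Type} [Group G]
    [Group W] {B' : Set (W → ℂ)} {B : Set (G → ℂ)}
    (h : ∀ Q : ℂ → ℕ → Prop, Pool.Agent.K4H11.FR.QOK p Q →
      alternatingSum p W (fun K => (Pool.Agent.K4H11.FR.cntQ O Q B' K : ℤ)) =
        alternatingSum p G (fun K => (Pool.Agent.K4H11.FR.cntQ O Q B K : ℤ))) (d : ℕ) :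
    SDef p O d B' = SDef p O d B := by
  refine h (fun z a => ∃ n : ℕ, z = (n : ℂ) ∧ n.factorization p + d = a.factorization p) ?_
  intro m m' a b k hm hm' ha hb hk he
  have hk0 : k ≠ 0 := by
    rintro rfl
    exact hk (dvd_zero p)
  have h1 : a.factorization p + m'.factorization p = b.factorization p + m.factorization p := by
    have h2 := congrArg (fun n => n.factorization p) he
    simp only [Nat.factorization_mul ha.ne' hm'.ne', Nat.factorization_mul hk0 hb.ne',
      Nat.factorization_mul (mul_ne_zero hk0 hb.ne') hm.ne', Finsupp.add_apply] at h2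
    rw [Nat.factorization_eq_zero_of_not_dvd hk, zero_add] at h2
    exact h2
  constructor
  · rintro ⟨n, hn, h2⟩
    have : m = n := by exact_mod_cast hn
    subst this
    exact ⟨m', rfl, by omega⟩
  · rintro ⟨n, hn, h2⟩
    have : m' = n := by exact_mod_cast hn
    subst this
    exact ⟨m, rfl, by omega⟩

theorem perfect {p : ℕ} [hp : Fact p.Prime] {O : ValuationSubring ℂ}
    (hpO : (p : ℂ) ∈ O.nonunits) {q : ℕ} [hq : Fact q.Prime] (hpq : q ≠ p) {G : Type} [Group G]
    {B : Set (G → ℂ)} (hB : AdmB p O G B) :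
    ∃ (W : Type) (_ : Group W) (B' : Set (W → ℂ)), IsPerfectExt q W ∧ Realises p O B' B ∧
      (q = 2 → numConj B' = numConj B) := by
  have := hB.fin
  have := Fintype.ofFinite G
  obtain ⟨B', h1, h2, h3, h4⟩ := Pool.Agent.K4H11.FR.awc_ext (Pool.Agent.K4H11.FR.toAlt G) q hpO hpq
    (Pool.Agent.K4H11.FR.toAlt_inj G) (Pool.Agent.K4H11.FR.index_toAlt G) hB
  exact ⟨_, inferInstance, B', Pool.Agent.K4H11.FR.perfectExt_WW q, ⟨h1, h2, sum_eq h3, sumDef_eq h3⟩,
    h4⟩

theorem odd_mod {p : ℕ} [hp : Fact p.Prime] {O : ValuationSubring ℂ} {G : Type} [Group G]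
    {B : Set (G → ℂ)} (hB : AdmB p O G B) (ho : Odd (numConj B)) :
    (2 : ℤ) ∣ S p O B ↔ Even (TOdd p O B) := by
  have := hB.fin
  have h1 := Pool.Agent.K4H11.AW.blkOdd_mod (p := p) hB.block ho
  have h2 := Pool.Agent.Q90.WR.blkAlt_parity (p := p) (O := O) B
  rw [Nat.ModEq] at h1
  have h4 : Even (TOdd p O B) ↔ Even (Pool.Agent.Q90.WR.blkAltT p O B) := by
    rw [Nat.even_iff, Nat.even_iff]
    change Pool.Agent.K4H11.AW.blkOdd p O B % 2 = 0 ↔ _
    rw [h1]
  rw [h4]
  exact h2.symm

/-- Let `p ≠ q` be primes. Here `(G, B)` is a finite group with `O_p(G) = 1` and a block `B` with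
nontrivial defect groups (`AdmB p O G B`); `S(B)` is the sum of Q1 and `SDef d B` Dade's sum for the
characters of `p`-defect `d`.
(1) If `G` is isomorphic to a subgroup of index at least three of a finite group `H`, then the sums of
`B` are the sums of a block `B'` of a semidirect product `W` of an elementary abelian `q`-group with `H`;
`(W, B')` is such a pair again, with isomorphic defect groups.
(2) For each `(G, B)` there is such a `(W, B')` with `W` perfect, a semidirect product of an elementary
abelian `q`-group and an alternating group of degree at least five acting faithfully on it.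
(3) `S(B) = 0` for all `(G, B)` if and only if `S(B) ≤ 0` for these perfect groups.
(4) All sums `SDef d B` vanish for all `(G, B)` if and only if they vanish for these perfect groups.
(5) If `p` is odd: `S(B) = 0` for all `(G, B)` if and only if `S` is bounded above on the blocks of these
perfect groups.
(6) If `p` is odd: `S(B) = 0` for all `(G, B)` if and only if `TOdd` is even for all blocks with an odd
number of Galois conjugates of these perfect groups with `q = 2`. -/
theorem result (p : ℕ) [Fact p.Prime] (O : ValuationSubring ℂ) (hpO : (p : ℂ) ∈ O.nonunits)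
    (q : ℕ) [Fact q.Prime] (hpq : q ≠ p) :
    (∀ (G : Type) [Group G] (B : Set (G → ℂ)), AdmB p O G B →
      ∀ (H : Type) [Group H] [Finite H] (ι : G →* H), Function.Injective ι → 3 ≤ ι.range.index →
        ∃ (W : Type) (_ : Group W) (B' : Set (W → ℂ)), IsExt q H W ∧ Realises p O B' B) ∧
    (∀ (G : Type) [Group G] (B : Set (G → ℂ)), AdmB p O G B →
      ∃ (W : Type) (_ : Group W) (B' : Set (W → ℂ)), IsPerfectExt q W ∧ Realises p O B' B) ∧
    (Conj p O ↔ ∀ (W : Type) [Group W] (B : Set (W → ℂ)), AdmB p O W B → IsPerfectExt q W →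
      S p O B ≤ 0) ∧
    ((∀ (G : Type) [Group G] (B : Set (G → ℂ)), AdmB p O G B → ∀ d, SDef p O d B = 0) ↔
      ∀ (W : Type) [Group W] (B : Set (W → ℂ)), AdmB p O W B → IsPerfectExt q W →
        ∀ d, SDef p O d B = 0) ∧
    (p ≠ 2 → (Conj p O ↔ ∃ c : ℤ, ∀ (W : Type) [Group W] (B : Set (W → ℂ)), AdmB p O W B →
      IsPerfectExt q W → S p O B ≤ c)) ∧
    (p ≠ 2 → (Conj p O ↔ ∀ (W : Type) [Group W] (B : Set (W → ℂ)), AdmB p O W B →
      IsPerfectExt 2 W → Odd (numConj B) → Even (TOdd p O B))) := by
  refine ⟨fun G _ B hB H _ _ ι hι h3 => ?_, fun G _ B hB => ?_,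
    ⟨fun h W _ B hB _ => (h W B hB).le, fun h G _ B hB => ?_⟩,
    ⟨fun h W _ B hB _ => h W B hB, fun h G _ B hB d => ?_⟩, fun hp2 => ?_, fun hp2 => ?_⟩
  · have := hB.fin
    have := Fintype.ofFinite G
    have := Fintype.ofFinite H
    obtain ⟨B', h1, h2, h4, -⟩ := Pool.Agent.K4H11.FR.awc_ext ι q hpO hpq hι h3 hB
    exact ⟨_, inferInstance, B', ⟨Pool.Agent.K4H11.FR.V0 ι.range q, inferInstance,
      Pool.Agent.K4H11.FR.phi, Pool.Agent.K4H11.FR.V0_pow _ q, ⟨MulEquiv.refl _⟩⟩,
      ⟨h1, h2, sum_eq h4, sumDef_eq h4⟩⟩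
  · obtain ⟨W, i, B', h1, h2, -⟩ := perfect hpO hpq hB
    exact ⟨W, i, B', h1, h2⟩
  · have := hB.fin
    obtain ⟨W, i, B', h1, h2, -⟩ := perfect hpO hpq (hB.prod hB)
    have h3 := h W B' h2.adm h1
    rw [h2.sum] at h3
    have h4 : S p O (Pool.Agent.Q90.WR.bxS B B) = S p O B * S p O B :=
      Pool.Agent.K4H11.AW.blkAlt_prod hB.block hB.block
    rw [h4] at h3
    nlinarith [mul_self_nonneg (S p O B)]
  · obtain ⟨W, i, B', h1, h2, -⟩ := perfect hpO hpq hB
    rw [← h2.sumDef d]
    exact h W B' h2.adm h1 d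
  · constructor
    · exact fun h => ⟨0, fun W _ B hB _ => (h W B hB).le⟩
    · rintro ⟨c, h⟩ G _ B hB
      by_contra hne
      obtain ⟨G', i', B', h1, -, h3⟩ := Pool.Agent.K4H11.AW.amplify (p := p) (O := O)
        (C := fun G i B => @AdmB p O G i B) hp2 hpO (fun G _ B h => h)
        (fun G _ B h => h.wr hp2 hpO) (fun G _ B h => h.prod h) G B hB hne c.toNat
      obtain ⟨W, i, B'', h4, h5, -⟩ := perfect hpO hpq h1
      have h6 := h W B'' h5.adm h4
      rw [h5.sum] at h6
      have h7 : (2 : ℤ) ^ 2 ^ c.toNat ≤ c := h3.trans h6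
      have h8 : c.toNat < 2 ^ c.toNat := Nat.lt_two_pow_self
      have h9 : 2 ^ c.toNat < 2 ^ 2 ^ c.toNat := Nat.pow_lt_pow_right one_lt_two h8
      have h10 : (c.toNat : ℤ) < 2 ^ 2 ^ c.toNat := by exact_mod_cast h8.trans h9
      have h11 := Int.self_le_toNat c
      omega
  · refine (Pool.Agent.K4H11.AW.odd_all hp2 hpO).trans
      ⟨fun h W _ B hB _ ho => h W B hB ho, fun h G _ B hB ho => ?_⟩
    have : Fact (Nat.Prime 2) := ⟨Nat.prime_two⟩
    obtain ⟨W, i, B', h1, h2, h3⟩ := perfect hpO (Ne.symm hp2) hB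
    have h4 : Odd (numConj B') := by
      rw [h3 rfl]
      exact ho
    have h5 := h W B' h2.adm h1 h4
    rw [← odd_mod h2.adm h4, h2.sum] at h5
    exact (odd_mod hB ho).mp h5

end Pool.Agent.Results.MP_6a3f1a_al.PerfectGroups
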